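import Pool.Agent.NPX.Stmts

/-!
# Squad NPX, row SPA: control of the supports over a countable set
-/

set_option autoImplicit false

open MeasureTheory Set Topology

noncomputable section

namespace Pool.Agent.NPX.H29

open Pool.Agent.LSG Pool.Agent.NPX

/-- SPA -/
theorem spa (phn : PhnStmt) : SpaStmt := by
  intro K _ _ _ _ _ _ _ _ G hG p q T c hc S0 hS0 hS0G
  choose E φ hm hiff using phn K G p q T c hc
  have hmem : ∀ (i : Fin q) (n : ℕ) (x : K), x ∈ G → x ∈ E i n → φ i n x ∈ G := by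
    intro i n x hx hxE
    obtain ⟨a, -, ha⟩ := (hiff i ⟨x, hx⟩ (φ i n x)).2 ⟨n, hxE, rfl⟩
    rw [← ha]
    exact a.1.2
  have hch : ∀ (k : ℤ) (s : K) (i : Fin q) (n : ℕ), ∃ S' : Set K, S'.Countable ∧ S' ⊆ G ∧
      (Inf K k → s ∈ S0 →
        mk K k {x | x * s ∈ E i n ∧ ∀ j : ℤ, φ i n (x * s) * (x ^ j)⁻¹ ∉ S'} = 0) := by
    intro k s i n
    by_cases h : Inf K k ∧ s ∈ S0
    · obtain ⟨hk, hs⟩ := h
      obtain ⟨S', h1, h2, h3⟩ := hG.star k hk {x | x * s ∈ E i n} (fun x => φ i n (x * s))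
        ((continuous_mul_right s).measurable (hm i n).1)
        ((hm i n).2.comp (continuous_mul_right s).measurable)
        (fun x hx hxE => hmem i n _ (G.mul_mem hx (hS0G hs)) hxE)
      exact ⟨S', h1, h2, fun _ _ => h3⟩
    · exact ⟨∅, Set.countable_empty, Set.empty_subset _, fun h1 h2 => absurd ⟨h1, h2⟩ h⟩
  choose S' hS'c hS'G hS'0 using hch
  refine ⟨(⋃ s ∈ S0, ⋃ (i : Fin q), ⋃ (n : ℕ), {z | s ∈ E i n ∧ φ i n s = z}) ∪
    (⋃ (k : ℤ), ⋃ s ∈ S0, ⋃ (i : Fin q), ⋃ (n : ℕ), ⋃ (j : ℤ),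
      (fun t => t * (s ^ j)⁻¹) '' S' k s i n), ?_, ?_, ?_, ?_⟩
  · refine Set.Countable.union ?_ ?_
    · refine hS0.biUnion fun s _ => Set.countable_iUnion fun i => Set.countable_iUnion fun n => ?_
      exact Set.Countable.mono (fun z hz => by exact hz.2.symm)
        (Set.countable_singleton (φ i n s))
    · exact Set.countable_iUnion fun k => hS0.biUnion fun s _ => Set.countable_iUnion fun i =>
        Set.countable_iUnion fun n => Set.countable_iUnion fun j => (hS'c k s i n).image _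
  · rintro z (hz | hz)
    · simp only [Set.mem_iUnion] at hz
      obtain ⟨s, hs, i, n, h1, h2⟩ := hz
      rw [← h2]
      exact hmem i n s (hS0G hs) h1
    · simp only [Set.mem_iUnion, Set.mem_image] at hz
      obtain ⟨k, s, hs, i, n, j, t, ht, rfl⟩ := hz
      exact G.mul_mem (hS'G k s i n ht) (G.inv_mem (G.zpow_mem (hS0G hs) j))
  · intro y i a hy hca
    obtain ⟨n, h1, h2⟩ := (hiff i y a.1).1 ⟨a, hca, rfl⟩
    left
    simp only [Set.mem_iUnion]
    exact ⟨y, hy, i, n, h1, h2⟩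
  · intro k hk s hs
    have hae : ∀ᵐ x ∂(mu K), ∀ (i : Fin q) (n : ℕ), x ^ k * s ∈ E i n →
        ∃ j : ℤ, φ i n (x ^ k * s) * ((x ^ k) ^ j)⁻¹ ∈ S' k s i n := by
      rw [ae_all_iff]
      intro i
      rw [ae_all_iff]
      intro n
      have h0 := Measure.preimage_null_of_map_null
        (continuous_zpow k).measurable.aemeasurable (hS'0 k s i n hk hs)
      refine measure_mono_null (fun x hx => ?_) h0
      by_contra hcon
      refine hx fun hxE => ?_
      by_contra hall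
      push Not at hall
      exact hcon ⟨hxE, hall⟩
    filter_upwards [hae] with x hx y i a hy hca
    obtain ⟨n, h1, h2⟩ := (hiff i y a.1).1 ⟨a, hca, rfl⟩
    rw [hy] at h1 h2
    obtain ⟨j, hj⟩ := hx i n h1
    refine ⟨j, Or.inr ?_⟩
    simp only [Set.mem_iUnion, Set.mem_image]
    refine ⟨k, s, hs, i, n, j, _, hj, ?_⟩
    rw [h2, hy, mul_zpow, mul_inv, mul_assoc]

end Pool.Agent.NPX.H29
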